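import Mathlib

namespace Pool.Helper793.Unitary

open Finset

/-- `σ* n`: the product of `1 + p ^ a` over the prime powers `p ^ a` exactly dividing `n`. -/
def sstar (n : ℕ) : ℕ := ∏ p ∈ n.primeFactors, (1 + p ^ (n.factorization p))

/-! ### exchange lemmas -/

lemma exch (good : ℕ → Prop) [DecidablePred good] (hgood : ∀ v, good v → 0 < v) (M : ℕ)
    (hM : 0 < M) (T : Finset ℕ) (hT : ∀ v ∈ T, good v)
    (hcard : T.card ≤ ((Finset.range (M + 1)).filter good).card) :
    ∏ v ∈ T, (1 + 1 / (v : ℝ)) ≤ ∏ v ∈ (Finset.range (M + 1)).filter good, (1 + 1 / (v : ℝ)) := by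
  set P := (Finset.range (M + 1)).filter good with hP
  have hMr : (0 : ℝ) < M := by exact_mod_cast hM
  set c : ℝ := 1 + 1 / (M : ℝ) with hc
  have hc1 : 1 ≤ c := by rw [hc]; have : (0 : ℝ) < 1 / M := by positivity
                         linarith
  have hmem : ∀ v, v ∈ P ↔ v ≤ M ∧ good v := by
    intro v
    rw [hP, Finset.mem_filter, Finset.mem_range]
    constructor
    · rintro ⟨h1, h2⟩; exact ⟨by omega, h2⟩
    · rintro ⟨h1, h2⟩; exact ⟨by omega, h2⟩
  have hpos : ∀ v : ℕ, 0 ≤ 1 + 1 / (v : ℝ) := fun v => by positivity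
  have h1 : ∏ v ∈ T, (1 + 1 / (v : ℝ)) ≤ (∏ v ∈ T ∩ P, (1 + 1 / (v : ℝ))) * c ^ (T \ P).card := by
    rw [← Finset.prod_inter_mul_prod_sdiff T P]
    apply mul_le_mul_of_nonneg_left _ (Finset.prod_nonneg (fun v _ => hpos v))
    rw [← Finset.prod_const]
    apply Finset.prod_le_prod (fun v _ => hpos v)
    intro v hv
    rw [Finset.mem_sdiff, hmem] at hv
    have hg := hT v hv.1
    have hvM : M < v := by
      by_contra hcon
      exact hv.2 ⟨by omega, hg⟩
    rw [hc]
    have : (1 : ℝ) / v ≤ 1 / M := one_div_le_one_div_of_le hMr (by exact_mod_cast hvM.le)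
    linarith
  have h2 : (∏ v ∈ T ∩ P, (1 + 1 / (v : ℝ))) * c ^ (P \ T).card ≤ ∏ v ∈ P, (1 + 1 / (v : ℝ)) := by
    rw [← Finset.prod_inter_mul_prod_sdiff P T, Finset.inter_comm P T]
    apply mul_le_mul_of_nonneg_left _ (Finset.prod_nonneg (fun v _ => hpos v))
    rw [← Finset.prod_const]
    apply Finset.prod_le_prod (fun v _ => by linarith)
    intro v hv
    rw [Finset.mem_sdiff, hmem] at hv
    have hv0 := hgood v hv.1.2
    rw [hc]
    have : (1 : ℝ) / M ≤ 1 / v :=
      one_div_le_one_div_of_le (by exact_mod_cast hv0) (by exact_mod_cast hv.1.1)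
    linarith
  have h3 : (T \ P).card ≤ (P \ T).card := by
    have e1 := Finset.card_sdiff_add_card_inter T P
    have e2 := Finset.card_sdiff_add_card_inter P T
    rw [Finset.inter_comm P T] at e2
    omega
  calc ∏ v ∈ T, (1 + 1 / (v : ℝ)) ≤ (∏ v ∈ T ∩ P, (1 + 1 / (v : ℝ))) * c ^ (T \ P).card := h1
    _ ≤ (∏ v ∈ T ∩ P, (1 + 1 / (v : ℝ))) * c ^ (P \ T).card :=
        mul_le_mul_of_nonneg_left (pow_le_pow_right₀ hc1 h3)
          (Finset.prod_nonneg (fun v _ => hpos v))
    _ ≤ _ := h2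

lemma exch' (good : ℕ → Prop) [DecidablePred good] (M : ℕ)
    (hM : 0 < M) (T : Finset ℕ) (hT : ∀ v ∈ T, good v)
    (hcard : ((Finset.range (M + 1)).filter good).card ≤ T.card) :
    ∏ v ∈ (Finset.range (M + 1)).filter good, v ≤ ∏ v ∈ T, v := by
  set P := (Finset.range (M + 1)).filter good with hP
  have hmem : ∀ v, v ∈ P ↔ v ≤ M ∧ good v := by
    intro v
    rw [hP, Finset.mem_filter, Finset.mem_range]
    constructor
    · rintro ⟨h1, h2⟩; exact ⟨by omega, h2⟩
    · rintro ⟨h1, h2⟩; exact ⟨by omega, h2⟩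
  have h3 : (P \ T).card ≤ (T \ P).card := by
    have e1 := Finset.card_sdiff_add_card_inter T P
    have e2 := Finset.card_sdiff_add_card_inter P T
    rw [Finset.inter_comm P T] at e2
    omega
  have h1 : ∏ v ∈ P, v ≤ (∏ v ∈ T ∩ P, v) * M ^ (P \ T).card := by
    rw [← Finset.prod_inter_mul_prod_sdiff P T, Finset.inter_comm P T]
    apply Nat.mul_le_mul_left
    rw [← Finset.prod_const]
    apply Finset.prod_le_prod (fun v _ => Nat.zero_le v)
    intro v hv
    rw [Finset.mem_sdiff, hmem] at hv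
    exact hv.1.1
  have h2 : (∏ v ∈ T ∩ P, v) * M ^ (T \ P).card ≤ ∏ v ∈ T, v := by
    rw [← Finset.prod_inter_mul_prod_sdiff T P]
    apply Nat.mul_le_mul_left
    rw [← Finset.prod_const]
    apply Finset.prod_le_prod (fun v _ => Nat.zero_le M)
    intro v hv
    rw [Finset.mem_sdiff, hmem] at hv
    by_contra hcon
    exact hv.2 ⟨by omega, hT v hv.1⟩
  exact h1.trans ((Nat.mul_le_mul_left _ (Nat.pow_le_pow_right hM h3)).trans h2)

/-! ### basic facts -/

lemma sstar_mul {m n : ℕ} (h : Nat.Coprime m n) : sstar (m * n) = sstar m * sstar n := by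
  unfold sstar
  rw [h.primeFactors_mul, Finset.prod_union h.disjoint_primeFactors]
  congr 1
  · apply Finset.prod_congr rfl
    intro p hp
    have h1 : n.factorization p = 0 := by
      apply Nat.factorization_eq_zero_of_not_dvd
      intro hd
      have hpp := Nat.prime_of_mem_primeFactors hp
      have := Nat.dvd_gcd (Nat.mem_primeFactors.1 hp).2.1 hd
      rw [h] at this
      exact hpp.one_lt.ne' (Nat.dvd_one.1 this)
    rw [Nat.factorization_mul_of_coprime h, Finsupp.add_apply, h1, add_zero]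
  · apply Finset.prod_congr rfl
    intro p hp
    have h1 : m.factorization p = 0 := by
      apply Nat.factorization_eq_zero_of_not_dvd
      intro hd
      have hpp := Nat.prime_of_mem_primeFactors hp
      have := Nat.dvd_gcd hd (Nat.mem_primeFactors.1 hp).2.1
      rw [h] at this
      exact hpp.one_lt.ne' (Nat.dvd_one.1 this)
    rw [Nat.factorization_mul_of_coprime h, Finsupp.add_apply, h1, zero_add]

lemma sstar_cast {n : ℕ} (hn : n ≠ 0) : (sstar n : ℝ) =
    n * ∏ p ∈ n.primeFactors, (1 + 1 / ((p ^ (n.factorization p) : ℕ) : ℝ)) := by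
  have h1 : (n : ℝ) = ∏ p ∈ n.primeFactors, ((p ^ (n.factorization p) : ℕ) : ℝ) := by
    rw [← Nat.cast_prod]
    congr 1
    exact (Nat.prod_factorization_pow_eq_self hn).symm
  unfold sstar
  rw [Nat.cast_prod]
  rw [h1]
  rw [← Finset.prod_mul_distrib]
  apply Finset.prod_congr rfl
  intro p hp
  have hpp := Nat.prime_of_mem_primeFactors hp
  have : (0 : ℝ) < ((p ^ (n.factorization p) : ℕ) : ℝ) := by exact_mod_cast pow_pos hpp.pos _
  push_cast at this ⊢
  field_simp
  ring

lemma odd_of {m n : ℕ} (hm : 0 < m) (hn : 0 < n) (hc : Nat.Coprime m n)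
    (h2 : sstar n = m + n) : Odd m := by
  by_contra hcon
  rw [Nat.not_odd_iff_even] at hcon
  have hnodd : Odd n := by
    by_contra h
    rw [Nat.not_odd_iff_even] at h
    have := Nat.dvd_gcd hcon.two_dvd h.two_dvd
    rw [hc] at this
    omega
  have hodd : Odd (sstar n) := by
    rw [h2]
    exact hcon.add_odd hnodd
  have hn1 : n = 1 := by
    by_contra hne
    obtain ⟨p, hp, hpn⟩ := Nat.exists_prime_and_dvd hne
    have hpodd : Odd p := hnodd.of_dvd_nat hpn
    have h3 : (1 + p ^ (n.factorization p)) ∣ sstar n :=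
      Finset.dvd_prod_of_mem _ (Nat.mem_primeFactors.2 ⟨hp, hpn, by omega⟩)
    have h4 : Odd (1 + p ^ (n.factorization p)) := hodd.of_dvd_nat h3
    have h5 : Even (1 + p ^ (n.factorization p)) := by
      rw [add_comm]
      exact (hpodd.pow).add_odd odd_one
    exact (Nat.not_even_iff_odd.2 h4) h5
  rw [hn1] at h2
  simp [sstar] at h2
  omega

lemma no_minus_one {m n : ℕ} (hc : Nat.Coprime m n)
    (h1 : sstar m = m + n) (h2 : sstar n = m + n) (q : ℕ) (hq : q.Prime)
    (hqd : q ∣ m * n) (p : ℕ) (hp : p ∈ (m * n).primeFactors) :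
    ¬ q ∣ 1 + p ^ ((m * n).factorization p) := by
  intro hd
  have h3 : (1 + p ^ ((m * n).factorization p)) ∣ sstar (m * n) :=
    Finset.dvd_prod_of_mem _ hp
  rw [sstar_mul hc, h1, h2] at h3
  have h4 : q ∣ m + n := by
    have := hd.trans h3
    rcases hq.dvd_mul.1 this with h | h <;> exact h
  rcases hq.dvd_mul.1 hqd with h | h
  · have h5 : q ∣ n := (Nat.dvd_add_right h).1 h4
    have := Nat.dvd_gcd h h5
    rw [hc] at this
    exact hq.one_lt.ne' (Nat.dvd_one.1 this)
  · have h5 : q ∣ m := (Nat.dvd_add_left h).1 h4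
    have := Nat.dvd_gcd h5 h
    rw [hc] at this
    exact hq.one_lt.ne' (Nat.dvd_one.1 this)

lemma prod_gt {m n : ℕ} (hm : 0 < m) (hn : 0 < n) (hne : m ≠ n) (hc : Nat.Coprime m n)
    (h1 : sstar m = m + n) (h2 : sstar n = m + n) :
    4 < ∏ p ∈ (m * n).primeFactors, (1 + 1 / ((p ^ ((m * n).factorization p) : ℕ) : ℝ)) := by
  have h3 := sstar_cast (n := m * n) (by positivity)
  rw [sstar_mul hc, h1, h2] at h3
  have hm' : (0 : ℝ) < m := by exact_mod_cast hm
  have hn' : (0 : ℝ) < n := by exact_mod_cast hn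
  have hne' : (m : ℝ) - n ≠ 0 := by
    rw [sub_ne_zero]
    exact_mod_cast hne
  have h4 : 0 < ((m : ℝ) - n) ^ 2 := by positivity
  push_cast at h3
  have h5 : (4 : ℝ) * (m * n) < (m * n) *
      ∏ p ∈ (m * n).primeFactors, (1 + 1 / ((p : ℝ) ^ ((m * n).factorization p))) := by
    rw [← h3]
    nlinarith
  have h6 : (0 : ℝ) < m * n := by positivity
  push_cast
  by_contra hcon
  push Not at hcon
  have := mul_le_mul_of_nonneg_left hcon h6.le
  linarith

/-! ### numerical facts -/

/-- Boolean test: `v ≥ 5` and `v` has no prime divisor at most `37` except possibly itself -/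
def isA (v : ℕ) : Bool :=
  Nat.ble 5 v && ([2, 3, 5, 7, 11, 13, 17, 19, 23, 29, 31, 37].all fun d =>
    !(Nat.beq (v % d) 0) || Nat.beq v d)

/-- Boolean test for `v % 6 = 1`, `v ≥ 7` -/
def isB (v : ℕ) : Bool := Nat.ble 7 v && Nat.beq (v % 6) 1

/-- first kind of admissible number -/
def goodA (v : ℕ) : Prop := isA v = true

/-- second kind of admissible number -/
def goodB (v : ℕ) : Prop := isB v = true

instance : DecidablePred goodA := fun v => inferInstanceAs (Decidable (isA v = true))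
instance : DecidablePred goodB := fun v => inferInstanceAs (Decidable (isB v = true))

lemma goodA_of {v : ℕ} (hp : v.Prime) (h5 : 5 ≤ v) : goodA v := by
  unfold goodA isA
  rw [Bool.and_eq_true, List.all_eq_true]
  refine ⟨Nat.ble_eq_true_of_le h5, ?_⟩
  intro d hd
  rw [Bool.or_eq_true]
  by_cases h : v % d = 0
  · right
    have hd2 : d ≠ 1 := by
      rintro rfl
      simp at hd
    have := (Nat.dvd_prime hp).1 (Nat.dvd_of_mod_eq_zero h)
    rcases this with h1 | h1
    · exact absurd h1 hd2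
    · simp [h1]
  · left
    rw [Bool.not_eq_true']
    apply Bool.eq_false_iff.2
    intro hh
    exact h (Nat.eq_of_beq_eq_true hh)

lemma goodA_five {v : ℕ} (h : goodA v) : 5 ≤ v := by
  unfold goodA isA at h
  rw [Bool.and_eq_true] at h
  exact Nat.le_of_ble_eq_true h.1

lemma goodB_of {v : ℕ} (h6 : v % 6 = 1) (h7 : 7 ≤ v) : goodB v := by
  unfold goodB isB
  rw [Bool.and_eq_true]
  exact ⟨Nat.ble_eq_true_of_le h7, by simp [h6]⟩

lemma goodB_seven {v : ℕ} (h : goodB v) : 7 ≤ v := by
  unfold goodB isB at h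
  rw [Bool.and_eq_true] at h
  exact Nat.le_of_ble_eq_true h.1

/-- product of `f i` for `lo ≤ i < lo + n` with `g i`, binary splitting with fuel -/
def bp (g : ℕ → Bool) (f : ℕ → ℕ) : ℕ → ℕ → ℕ → ℕ
  | 0, _, _ => 1
  | fuel + 1, lo, n =>
    if Nat.ble n 1 then (if Nat.beq n 0 then 1 else (if g lo then f lo else 1))
    else bp g f fuel lo (n / 2) * bp g f fuel (lo + n / 2) (n - n / 2)

lemma bp_eq (g : ℕ → Bool) (f : ℕ → ℕ) (fuel lo n : ℕ) (h : n ≤ 2 ^ fuel) :
    bp g f (fuel + 1) lo n = ∏ i ∈ Finset.Ico lo (lo + n), if g i then f i else 1 := by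
  induction fuel generalizing lo n with
  | zero =>
    have h' : n ≤ 1 := by simpa using h
    rw [bp, if_pos (Nat.ble_eq_true_of_le h')]
    by_cases h0 : n = 0
    · subst h0
      simp
    · have : n = 1 := by omega
      subst this
      simp
  | succ fuel ih =>
    rw [bp]
    by_cases h1 : n ≤ 1
    · rw [if_pos (Nat.ble_eq_true_of_le h1)]
      by_cases h0 : n = 0
      · subst h0
        simp
      · have : n = 1 := by omega
        subst this
        simp
    · rw [if_neg (fun hh => h1 (Nat.le_of_ble_eq_true hh))]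
      have hp : 2 ^ (fuel + 1) = 2 * 2 ^ fuel := by ring
      have hpos : 0 < 2 ^ fuel := by positivity
      rw [ih lo (n / 2) (by omega), ih (lo + n / 2) (n - n / 2) (by omega)]
      have e : lo + n / 2 + (n - n / 2) = lo + n := by omega
      rw [e]
      exact Finset.prod_Ico_consecutive _ (by omega) (by omega)

lemma prod_filter_eq (g : ℕ → Bool) (f : ℕ → ℕ) (N : ℕ) (hN : N ≤ 2 ^ 11)
    (good : ℕ → Prop) [DecidablePred good] (hg : ∀ v, good v ↔ g v = true) :
    ∏ v ∈ (Finset.range N).filter good, f v = bp g f 12 0 N := by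
  rw [bp_eq g f 11 0 N hN, Finset.prod_filter, zero_add, ← Finset.range_eq_Ico]
  apply Finset.prod_congr rfl
  intro v _
  by_cases h : good v
  · rw [if_pos h, if_pos ((hg v).1 h)]
  · rw [if_neg h, if_neg (fun hh => h ((hg v).2 hh))]

lemma card_filter_eq (g : ℕ → Bool) (N c : ℕ) (hN : N ≤ 2 ^ 11)
    (good : ℕ → Prop) [DecidablePred good] (hg : ∀ v, good v ↔ g v = true)
    (h : bp g (fun _ => 2) 12 0 N = 2 ^ c) :
    ((Finset.range N).filter good).card = c := by
  have h1 := prod_filter_eq g (fun _ => 2) N hN good hg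
  rw [h, Finset.prod_const] at h1
  exact Nat.pow_right_injective le_rfl h1

lemma cardA : ((Finset.range (1567 + 1)).filter goodA).card = 245 :=
  card_filter_eq isA _ _ (by norm_num) _ (fun _ => Iff.rfl) (by decide +kernel)
lemma cardA' : ((Finset.range (1571 + 1)).filter goodA).card = 246 :=
  card_filter_eq isA _ _ (by norm_num) _ (fun _ => Iff.rfl) (by decide +kernel)
lemma cardB : ((Finset.range (1471 + 1)).filter goodB).card = 245 :=
  card_filter_eq isB _ _ (by norm_num) _ (fun _ => Iff.rfl) (by decide +kernel)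

lemma natA : ∏ v ∈ (Finset.range (1567 + 1)).filter goodA, (v + 1) ≤
    4 * ∏ v ∈ (Finset.range (1567 + 1)).filter goodA, v := by
  rw [prod_filter_eq isA (fun v => v + 1) _ (by norm_num) goodA (fun _ => Iff.rfl),
    prod_filter_eq isA (fun v => v) _ (by norm_num) goodA (fun _ => Iff.rfl)]
  decide +kernel
lemma natB : 4 * ∏ v ∈ (Finset.range (1471 + 1)).filter goodB, (v + 1) ≤
    12 * ∏ v ∈ (Finset.range (1471 + 1)).filter goodB, v := by
  rw [prod_filter_eq isB (fun v => v + 1) _ (by norm_num) goodB (fun _ => Iff.rfl),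
    prod_filter_eq isB (fun v => v) _ (by norm_num) goodB (fun _ => Iff.rfl)]
  decide +kernel
lemma bigA : 10 ^ 662 ≤ ∏ v ∈ (Finset.range (1571 + 1)).filter goodA, v := by
  rw [prod_filter_eq isA (fun v => v) _ (by norm_num) goodA (fun _ => Iff.rfl)]
  decide +kernel
lemma bigB : 10 ^ 662 ≤ ∏ v ∈ (Finset.range (1471 + 1)).filter goodB, v := by
  rw [prod_filter_eq isB (fun v => v) _ (by norm_num) goodB (fun _ => Iff.rfl)]
  decide +kernel

end Pool.Helper793.Unitary
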