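import Mathlib
import Pool.Agent.Helper793.Unitary.Main

namespace Pool.Helper793.Unitary

open Finset

lemma realA : ∏ v ∈ (Finset.range (1567 + 1)).filter goodA, (1 + 1 / (v : ℝ)) ≤ 4 := by
  have h := natA
  set P := (Finset.range (1567 + 1)).filter goodA with hP
  have hpos : ∀ v ∈ P, (0 : ℝ) < v := by
    intro v hv
    rw [hP, Finset.mem_filter] at hv
    have : 5 ≤ v := goodA_five hv.2
    exact_mod_cast (by omega : 0 < v)
  have h1 : ∏ v ∈ P, (1 + 1 / (v : ℝ)) = (∏ v ∈ P, ((v : ℝ) + 1)) / ∏ v ∈ P, (v : ℝ) := by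
    rw [← Finset.prod_div_distrib]
    apply Finset.prod_congr rfl
    intro v hv
    have := hpos v hv
    field_simp
  rw [h1, div_le_iff₀ (Finset.prod_pos hpos)]
  have h2 := (Nat.cast_le (α := ℝ)).2 h
  rw [Nat.cast_mul, Nat.cast_prod, Nat.cast_prod] at h2
  simpa using h2

lemma realB : 4 / 3 * ∏ v ∈ (Finset.range (1471 + 1)).filter goodB, (1 + 1 / (v : ℝ)) ≤ 4 := by
  have h := natB
  set P := (Finset.range (1471 + 1)).filter goodB with hP
  have hpos : ∀ v ∈ P, (0 : ℝ) < v := by
    intro v hv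
    rw [hP, Finset.mem_filter] at hv
    have : 7 ≤ v := goodB_seven hv.2
    exact_mod_cast (by omega : 0 < v)
  have h1 : ∏ v ∈ P, (1 + 1 / (v : ℝ)) = (∏ v ∈ P, ((v : ℝ) + 1)) / ∏ v ∈ P, (v : ℝ) := by
    rw [← Finset.prod_div_distrib]
    apply Finset.prod_congr rfl
    intro v hv
    have := hpos v hv
    field_simp
  have h0 := Finset.prod_pos hpos
  have h2 := (Nat.cast_le (α := ℝ)).2 h
  rw [Nat.cast_mul, Nat.cast_mul, Nat.cast_prod, Nat.cast_prod] at h2
  have h3 : ∏ v ∈ P, ((v : ℝ) + 1) ≤ 3 * ∏ v ∈ P, (v : ℝ) := by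
    have h4 : ∏ v ∈ P, (((v + 1 : ℕ)) : ℝ) = ∏ v ∈ P, ((v : ℝ) + 1) := by
      apply Finset.prod_congr rfl
      intro v _
      push_cast
      rfl
    rw [h4] at h2
    push_cast at h2
    linarith
  rw [h1]
  have h5 : (∏ v ∈ P, ((v : ℝ) + 1)) / ∏ v ∈ P, (v : ℝ) ≤ 3 := by
    rw [div_le_iff₀ h0]
    exact h3
  linarith

lemma oan (x : ℕ) : (0 : ℝ) ≤ 1 + 1 / (x : ℝ) := by positivity

lemma goodA_pos (v : ℕ) (h : goodA v) : 0 < v := by
  have := goodA_five h
  omega

lemma goodB_pos (v : ℕ) (h : goodB v) : 0 < v := by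
  have := goodB_seven h
  omega

lemma expo_pos {n p : ℕ} (hp : p ∈ n.primeFactors) : n.factorization p ≠ 0 := by
  have hpp := Nat.prime_of_mem_primeFactors hp
  have := Nat.Prime.factorization_pos_of_dvd hpp
    (Nat.mem_primeFactors.1 hp).2.2 (Nat.mem_primeFactors.1 hp).2.1
  omega

theorem main {m n : ℕ} (hm : 0 < m) (hn : 0 < n) (hne : m ≠ n) (hc : Nat.Coprime m n)
    (h1 : sstar m = m + n) (h2 : sstar n = m + n) :
    Odd m ∧ Odd n ∧ 246 ≤ (m * n).primeFactors.card ∧ 10 ^ 662 ≤ m * n := by
  have hmo := odd_of hm hn hc h2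
  have hno := odd_of hn hm hc.symm (by rw [h1, add_comm])
  refine ⟨hmo, hno, ?_⟩
  have hNodd : Odd (m * n) := hmo.mul hno
  have hN0 : m * n ≠ 0 := by positivity
  have hgt := prod_gt hm hn hne hc h1 h2
  have hmin := no_minus_one hc h1 h2
  set N := m * n with hN
  have hprime : ∀ p ∈ N.primeFactors, p.Prime := fun p hp => Nat.prime_of_mem_primeFactors hp
  have h3le : ∀ p ∈ N.primeFactors, 3 ≤ p := by
    intro p hp
    have hodd : Odd p := hNodd.of_dvd_nat (Nat.mem_primeFactors.1 hp).2.1
    have h2' := (hprime p hp).two_le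
    rcases hodd with ⟨t, ht⟩
    omega
  by_cases h3 : 3 ∣ N
  · -- case B
    set A := N.primeFactors with hA
    have h3A : 3 ∈ A := Nat.mem_primeFactors.2 ⟨Nat.prime_three, h3, hN0⟩
    set v : ℕ → ℕ := fun p => p ^ (N.factorization p) with hv
    have hinj : Set.InjOn v (A.erase 3 : Finset ℕ) := by
      intro p hp q hq hpq
      have hp' := Finset.mem_of_mem_erase (Finset.mem_coe.1 hp)
      have hq' := Finset.mem_of_mem_erase (Finset.mem_coe.1 hq)
      have e1 : p ∣ q ^ (N.factorization q) := by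
        have : v p = v q := hpq
        show p ∣ v q
        rw [← this]
        exact dvd_pow_self p (expo_pos hp')
      exact (Nat.prime_dvd_prime_iff_eq (hprime p hp') (hprime q hq')).1
        ((hprime p hp').dvd_of_dvd_pow e1)
    have hgood : ∀ x ∈ (A.erase 3).image v, goodB x := by
      intro x hx
      obtain ⟨p, hp, rfl⟩ := Finset.mem_image.1 hx
      have hp' := Finset.mem_of_mem_erase hp
      have hp3 := Finset.ne_of_mem_erase hp
      have hpodd : Odd p := hNodd.of_dvd_nat (Nat.mem_primeFactors.1 hp').2.1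
      have hvodd : Odd (v p) := hpodd.pow
      have hm3 := hmin 3 Nat.prime_three h3 p hp'
      have hn3 : ¬ 3 ∣ v p := by
        intro h
        have := (Nat.Prime.dvd_of_dvd_pow Nat.prime_three h)
        rw [Nat.prime_dvd_prime_iff_eq Nat.prime_three (hprime p hp')] at this
        exact hp3 this.symm
      have hge : 4 ≤ p := by
        have := h3le p hp'
        omega
      have hvp : p ≤ v p := Nat.le_self_pow (expo_pos hp') p
      have hm3' : ¬ 3 ∣ 1 + v p := hm3
      obtain ⟨t, ht⟩ := hvodd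
      have a1 : v p % 3 = 1 := by omega
      have a2 : v p % 2 = 1 := by omega
      exact goodB_of (by omega) (by omega)
    have hcardT : ((A.erase 3).image v).card = A.card - 1 := by
      rw [Finset.card_image_of_injOn hinj, Finset.card_erase_of_mem h3A]
    have hApos : 0 < A.card := Finset.card_pos.2 ⟨3, h3A⟩
    have hcard : 246 ≤ A.card := by
      by_contra hcon
      push Not at hcon
      have hle : ((A.erase 3).image v).card ≤
          ((Finset.range (1471 + 1)).filter goodB).card := by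
        rw [cardB, hcardT]
        omega
      have e1 := exch goodB goodB_pos 1471 (by norm_num) _ hgood hle
      rw [Finset.prod_image hinj] at e1
      rw [← Finset.mul_prod_erase A _ h3A] at hgt
      have e2 : (1 + 1 / ((3 ^ (N.factorization 3) : ℕ) : ℝ)) ≤ 4 / 3 := by
        have e3 : (3 : ℕ) ≤ 3 ^ (N.factorization 3) := Nat.le_self_pow (expo_pos h3A) 3
        have e4 : (3 : ℝ) ≤ ((3 ^ (N.factorization 3) : ℕ) : ℝ) := by exact_mod_cast e3
        have e5 : 1 / ((3 ^ (N.factorization 3) : ℕ) : ℝ) ≤ 1 / 3 :=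
          one_div_le_one_div_of_le (by norm_num) e4
        linarith
      have e6 : 0 ≤ ∏ p ∈ A.erase 3, (1 + 1 / ((v p : ℕ) : ℝ)) :=
        Finset.prod_nonneg (fun p _ => oan (v p))
      have e7 : (1 + 1 / ((3 ^ (N.factorization 3) : ℕ) : ℝ)) *
          ∏ p ∈ A.erase 3, (1 + 1 / ((v p : ℕ) : ℝ)) ≤ 4 := by
        calc _ ≤ 4 / 3 * ∏ p ∈ A.erase 3, (1 + 1 / ((v p : ℕ) : ℝ)) :=
              mul_le_mul_of_nonneg_right e2 e6
          _ ≤ 4 / 3 * ∏ v ∈ (Finset.range (1471 + 1)).filter goodB, (1 + 1 / (v : ℝ)) :=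
              mul_le_mul_of_nonneg_left e1 (by norm_num)
          _ ≤ 4 := realB
      exact absurd hgt (not_lt.2 e7)
    refine ⟨hcard, ?_⟩
    have hle' : ((Finset.range (1471 + 1)).filter goodB).card ≤ ((A.erase 3).image v).card := by
      rw [cardB, hcardT]
      omega
    have e1 := exch' goodB 1471 (by norm_num) _ hgood hle'
    have e1' := bigB.trans e1
    refine e1'.trans ?_
    rw [Finset.prod_image hinj]
    have e2 : ∏ p ∈ A, v p = N := Nat.prod_factorization_pow_eq_self hN0
    rw [← e2]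
    apply Finset.prod_le_prod_of_subset_of_one_le' (Finset.erase_subset _ _)
    intro p hp _
    exact Nat.one_le_pow _ _ (hprime p hp).pos
  · -- case A
    have hgood : ∀ p ∈ N.primeFactors, goodA p := by
      intro p hp
      refine goodA_of (hprime p hp) ?_
      have h5 := h3le p hp
      have hne3 : p ≠ 3 := by
        rintro rfl
        exact h3 (Nat.mem_primeFactors.1 hp).2.1
      have hne4 : p ≠ 4 := by
        rintro rfl
        exact absurd (hprime 4 hp) (by decide)
      omega
    have hcard : 246 ≤ N.primeFactors.card := by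
      by_contra hcon
      push Not at hcon
      have hle : N.primeFactors.card ≤ ((Finset.range (1567 + 1)).filter goodA).card := by
        rw [cardA]
        omega
      have e1 := exch goodA goodA_pos 1567 (by norm_num) _ hgood hle
      have e2 : ∏ p ∈ N.primeFactors, (1 + 1 / ((p ^ (N.factorization p) : ℕ) : ℝ)) ≤
          ∏ p ∈ N.primeFactors, (1 + 1 / (p : ℝ)) := by
        apply Finset.prod_le_prod (fun p _ => oan _)
        intro p hp
        have e3 : (p : ℕ) ≤ p ^ (N.factorization p) := Nat.le_self_pow (expo_pos hp) p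
        have e4 : (p : ℝ) ≤ ((p ^ (N.factorization p) : ℕ) : ℝ) := by exact_mod_cast e3
        have e5 : (0 : ℝ) < p := by exact_mod_cast (hprime p hp).pos
        have := one_div_le_one_div_of_le e5 e4
        linarith
      have e3 := (e2.trans e1).trans realA
      exact absurd hgt (not_lt.2 e3)
    refine ⟨hcard, ?_⟩
    have hle' : ((Finset.range (1571 + 1)).filter goodA).card ≤ N.primeFactors.card := by
      rw [cardA']
      exact hcard
    have e1 := exch' goodA 1571 (by norm_num) _ hgood hle'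
    exact (bigA.trans e1).trans
      (Nat.le_of_dvd (Nat.pos_of_ne_zero hN0) (Nat.prod_primeFactors_dvd N))

end Pool.Helper793.Unitary
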